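import Mathlib
import Pool.Agent.ADP.GR

/-!
# All almost distributive varieties of rings

Rings are associative and need not have an identity; they are Mathlib's `NonUnitalRing`s.
-/

namespace Pool.Agent.Results.MP_cf90cc_al.CompleteList

/-- Polynomials with integer coefficients in the noncommuting variables `x_0, x_1, x_2, ...`. -/
abbrev Poly := FreeAlgebra ℤ ℕ

/-- The variable `x_i`. -/
noncomputable def x (i : ℕ) : Poly := FreeAlgebra.ι ℤ i

/-- The word with the letters `x_i`, `i ∈ w`, in the order of the list `w`. -/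
noncomputable def word (w : List ℕ) : Poly := (w.map x).prod

/-- The coefficient of the word `w` in the polynomial `f`. -/
noncomputable def coefficient (w : List ℕ) (f : Poly) : ℤ :=
  (FreeAlgebra.equivMonoidAlgebraFreeMonoid f).coeff (FreeMonoid.ofList w)

/-- The constant term of a polynomial. -/
noncomputable def constantTerm : Poly →ₐ[ℤ] ℤ := FreeAlgebra.lift ℤ (fun _ => 0)

/-- The polynomials without constant term; only these are used as identities of rings without
identity element. -/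
def ConstantFree : Set Poly := {f | constantTerm f = 0}

/-- A ring: a type with the structure of an associative ring, not necessarily with identity. -/
abbrev RingObj := Σ R : Type, NonUnitalRing R

/-- The ring `R` satisfies the identity `f = 0`: for all elements `a_0, a_1, ...` of `R` the value
`f(a_0, a_1, ...)` is zero.  The value is computed in `Unitization ℤ R = ℤ ⊕ R`, the ring obtained
from `R` by adjoining an identity element; for `f` without constant term it lies in `R`. -/
def Satisfies (R : RingObj) (f : Poly) : Prop :=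
  letI : NonUnitalRing R.1 := R.2
  ∀ a : ℕ → R.1, FreeAlgebra.lift ℤ (fun i => ((a i : R.1) : Unitization ℤ R.1)) f = 0

/-- The class of all rings satisfying all identities in `S`. -/
def Mod (S : Set Poly) : Set RingObj := {R | ∀ f ∈ S, Satisfies R f}

/-- The identities (without constant term) satisfied by all rings in the class `K`. -/
def Identities (K : Set RingObj) : Set Poly := {f | f ∈ ConstantFree ∧ ∀ R ∈ K, Satisfies R f}

/-- A variety of rings: the class of all rings satisfying some set of polynomial identities. -/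
def IsVariety (K : Set RingObj) : Prop := ∃ S : Set Poly, S ⊆ ConstantFree ∧ K = Mod S

/-- The join of two varieties: the smallest variety containing both, i.e. the class of all rings
satisfying the common identities of both. -/
def join (K K' : Set RingObj) : Set RingObj := Mod (Identities (K ∪ K'))

/-- The lattice `L(V)` of subvarieties of `V` (meet = intersection) is distributive. -/
def DistributiveLattice (V : Set RingObj) : Prop :=
  ∀ A B C : Set RingObj, IsVariety A → IsVariety B → IsVariety C → A ⊆ V → B ⊆ V → C ⊆ V →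
    A ∩ join B C = join (A ∩ B) (A ∩ C)

/-- `V` is an almost distributive variety of rings: `L(V)` is not distributive, but `L(W)` is
distributive for every variety `W` properly contained in `V`. -/
def AlmostDistributive (V : Set RingObj) : Prop :=
  IsVariety V ∧ ¬ DistributiveLattice V ∧
    ∀ W, IsVariety W → W ⊂ V → DistributiveLattice W

/-- The free ring (without identity element) in `x_0, x_1, ...`: the polynomials without constant term. -/
def FreeRing : NonUnitalSubring Poly where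
  carrier := ConstantFree
  add_mem' := fun {a b} ha hb => by
    show constantTerm (a + b) = 0
    rw [map_add, show constantTerm a = 0 from ha, show constantTerm b = 0 from hb, add_zero]
  zero_mem' := map_zero _
  neg_mem' := fun {a} ha => by
    show constantTerm (-a) = 0
    rw [map_neg, show constantTerm a = 0 from ha, neg_zero]
  mul_mem' := fun {a b} ha _ => by
    show constantTerm (a * b) = 0
    rw [map_mul, show constantTerm a = 0 from ha, zero_mul]

/-- The largest ideal of the free ring all of whose elements have the property `K`: the sum of all ideals all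
of whose elements have the property `K`.  (The properties `K` used below are systems of homogeneous linear
congruences for the coefficients; so the elements of the sum have the property `K`, too.) -/
noncomputable def largestIdeal (K : Poly → Prop) : TwoSidedIdeal FreeRing := sSup {I | ∀ f ∈ I, K f}

/-- The quotient of the free ring by the largest ideal all of whose elements have the property `K`. -/
noncomputable def quotientRing (K : Poly → Prop) : RingObj := ⟨(largestIdeal K).ringCon.Quotient, inferInstance⟩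

/-- The variety generated by the ring `R`: the class of all rings satisfying all identities of `R`. -/
def generated (R : RingObj) : Set RingObj := Mod (Identities {R})

/-- The variety `U_p`: `p² x = 0`, `p x y = 0`, `x y = y x`, `x_0 x_1 ⋯ x_p = 0`. -/
def U (p : ℕ) : Set RingObj :=
  Mod {(p : ℤ) ^ 2 • x 0, (p : ℤ) • (x 0 * x 1), x 0 * x 1 - x 1 * x 0, word (List.range (p + 1))}

/-- The variety `N_p`: `p x = 0`, `x [y, z] = 0`, `[x, y] z = 0`, `x^(p+1) = 0`, `x_0 x_1 ⋯ x_(p+1) = 0`. -/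
def N (p : ℕ) : Set RingObj :=
  Mod {(p : ℤ) • x 0, x 0 * (x 1 * x 2 - x 2 * x 1), (x 0 * x 1 - x 1 * x 0) * x 2,
    x 0 ^ (p + 1), word (List.range (p + 2))}

/-- The variety `W_p` (in the list for `p ≠ 3`): `p x = 0`, `x y z + y z x + z x y = 0`, `x y z t = 0`. -/
def W (p : ℕ) : Set RingObj :=
  Mod {(p : ℤ) • x 0, x 0 * x 1 * x 2 + x 1 * x 2 * x 0 + x 2 * x 0 * x 1, word (List.range 4)}

/-- The variety `W_3`: `3 x = 0`, `x³ = 0`, `x y z + y z x + z x y = 0`, `x [y, z] + y [x, z] = 0`,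
`x y z t = 0`. -/
def W3 : Set RingObj :=
  Mod {(3 : ℤ) • x 0, x 0 ^ 3, x 0 * x 1 * x 2 + x 1 * x 2 * x 0 + x 2 * x 0 * x 1,
    x 0 * (x 1 * x 2 - x 2 * x 1) + x 1 * (x 0 * x 2 - x 2 * x 0), word (List.range 4)}

/-- The variety `E`: `9 x = 0`, `(x y + y x) z = 0`, `3 x (y z + z y) = 0`. -/
def E : Set RingObj :=
  Mod {(9 : ℤ) • x 0, (x 0 * x 1 + x 1 * x 0) * x 2, (3 : ℤ) • (x 0 * (x 1 * x 2 + x 2 * x 1))}

/-- The variety `E'`: `9 x = 0`, `x (y z + z y) = 0`, `3 (x y + y x) z = 0`. -/
def E' : Set RingObj :=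
  Mod {(9 : ℤ) • x 0, x 0 * (x 1 * x 2 + x 2 * x 1), (3 : ℤ) • ((x 0 * x 1 + x 1 * x 0) * x 2)}

/-- `1` if the letter `a` stands before the letter `b` in the word `w`, otherwise `-1`. -/
def before (w : List ℕ) (a b : ℕ) : ℤ := if w.idxOf a < w.idxOf b then 1 else -1

/-- The sign of the order in which the letters of the list `L` occur in the word `w`: the product
of `before w a b` over all pairs `a`, `b` of entries of `L`, `a` preceding `b` in `L`. -/
def orderSign (w : List ℕ) : List ℕ → ℤ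
  | [] => 1
  | a :: L => (L.map (fun b => before w a b)).prod * orderSign w L

/-- The word `x_(τ 0) x_(τ 1) ⋯ x_(τ (p-1))`, as a list of indices. -/
def arrangement (p : ℕ) (τ : Equiv.Perm (Fin p)) : List ℕ := List.ofFn (fun i => (τ i : ℕ))

/-- `A_k(g)`: the sum over all words `w` in which each of `x_0, ..., x_(p-1)` occurs exactly once
(and no other letter) of the coefficient of `w` in `g`, multiplied by the sign of the order in which
the letters `x_0, ..., x_(k-1)` occur in `w`. -/
noncomputable def A (p k : ℕ) (g : Poly) : ℤ :=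
  ∑ τ : Equiv.Perm (Fin p), coefficient (arrangement p τ) g * orderSign (arrangement p τ) (List.range k)

/-- `B_k(g)`: the same with the sum over `s = k, ..., p-1` of the signs of the orders in which the
letters `x_0, ..., x_(k-1), x_s` occur in `w`. -/
noncomputable def B (p k : ℕ) (g : Poly) : ℤ :=
  ∑ τ : Equiv.Perm (Fin p), coefficient (arrangement p τ) g *
    ∑ s ∈ Finset.Ico k p, orderSign (arrangement p τ) (List.range k ++ [s])

/-- The ring `R_(p,k)`, `1 ≤ k ≤ p - 1` (its variety is in the list for `p ≥ 3`): the quotient of the free ring by its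
largest ideal all of whose elements `g` satisfy: `A_k(g)` is divisible by `p`, and `B_k(g)` is divisible by `p`
(if `k` is odd) or by `p²` (if `k` is even). -/
noncomputable def R (p k : ℕ) : RingObj :=
  quotientRing fun g => (p : ℤ) ∣ A p k g ∧ (p : ℤ) ^ (2 - k % 2) ∣ B p k g

/-- `c_(i,j,k,l)(g)`: the sum of the coefficients in `g` of the words with `i` letters `x_0`, `j` letters `x_1`,
`k` letters `x_2`, `l` letters `x_3` and no others: the coefficient of `x_0^i x_1^j x_2^k x_3^l` in the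
image of `g` in the commutative polynomials. -/
noncomputable def c (i j k l : ℕ) (g : Poly) : ℤ :=
  (FreeAlgebra.lift ℤ MvPolynomial.X g : MvPolynomial ℕ ℤ).coeff
    (Finsupp.single 0 i + Finsupp.single 1 j + Finsupp.single 2 k + Finsupp.single 3 l)

/-- `d_i(g)`, for the ring `C_p`: the sum of the coefficients in `g` of the words with `2 + (p-1) i` letters
`x_0`, `1 + (p-1) (4-i)` letters `x_1` and no others, `0 ≤ i ≤ 4`. -/
noncomputable def d (p i : ℕ) (g : Poly) : ℤ := c (2 + (p - 1) * i) (1 + (p - 1) * (4 - i)) 0 0 g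

/-- The ring `C_p`, `p ≥ 5`. -/
noncomputable def C (p : ℕ) : RingObj :=
  quotientRing fun g => (p : ℤ) ∣ d p 3 g + 3 * d p 4 g ∧ (p : ℤ) ∣ d p 0 g + d p 1 g + d p 2 g + d p 4 g ∧
    (p : ℤ) ∣ d p 2 g - d p 0 g + 2 * d p 4 g

/-- The ring `C_3`. -/
noncomputable def C3 : RingObj :=
  quotientRing fun g => (3 : ℤ) ∣ c 8 1 0 0 g ∧ (3 : ℤ) ∣ c 2 7 0 0 g - c 4 5 0 0 g ∧
    (3 : ℤ) ∣ c 4 5 0 0 g - c 6 3 0 0 g

/-- The rings `C_2^(l,m)`, `l, m ∈ {0, 1}`. -/
noncomputable def C2 (l m : ℤ) : RingObj :=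
  quotientRing fun g =>
    (2 : ℤ) ∣ c 1 4 0 0 g + c 2 3 0 0 g + c 3 2 0 0 g + c 4 1 0 0 g + l * coefficient [1, 0] g ∧
    (2 : ℤ) ∣ c 3 3 0 0 g + m * coefficient [1, 0] g

/-- The ring `D` (its variety is in the list for `p = 2`). -/
noncomputable def D : RingObj :=
  quotientRing fun g => (2 : ℤ) ∣ c 3 1 1 1 g ∧ (2 : ℤ) ∣ c 2 2 1 1 g - c 1 1 2 2 g ∧
    (2 : ℤ) ∣ c 2 2 1 1 g + c 2 1 2 1 g + c 2 1 1 2 g

/-- The list for the prime `p`. -/
def Listed (p : ℕ) : Set (Set RingObj) :=
  {V | V = U p ∨ V = N p ∨ (p ≠ 3 ∧ V = W p) ∨ (3 ≤ p ∧ ∃ k, 1 ≤ k ∧ k < p ∧ V = generated (R p k)) ∨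
    (5 ≤ p ∧ V = generated (C p)) ∨
    (p = 3 ∧ (V = W3 ∨ V = E ∨ V = E' ∨ V = generated C3)) ∨
    (p = 2 ∧ (V = generated D ∨ V = generated (C2 0 0) ∨ V = generated (C2 0 1) ∨ V = generated (C2 1 0) ∨
      V = generated (C2 1 1)))}

private theorem order_eq (w L : List ℕ) : orderSign w L = ADC.sgl w L := by
  induction L with
  | nil => rfl
  | cons a L ih =>
    show (L.map (fun b => before w a b)).prod * orderSign w L = (L.map (fun b => ADC.bef w a b)).prod * ADC.sgl w L
    rw [ih]
    rfl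

private theorem A_eq (p k : ℕ) (g : Poly) : A p k g = ADC.fA p k g :=
  Finset.sum_congr rfl fun τ _ => by rw [order_eq]; rfl

private theorem B_eq (p k : ℕ) (g : Poly) : B p k g = ADC.fB p k g := by
  refine Finset.sum_congr rfl fun τ _ => ?_
  have h : ∀ s, orderSign (arrangement p τ) (List.range k ++ [s]) = ADC.sgl (ADC.arr p τ) (List.range k ++ [s]) :=
    fun s => order_eq _ _
  simp only [h]
  rfl

private theorem R_eq (p k : ℕ) : R p k = ADP.QR (ADP.KGd p k) := by
  have h : (fun g : Poly => (p : ℤ) ∣ A p k g ∧ (p : ℤ) ^ (2 - k % 2) ∣ B p k g) =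
      fun g => (p : ℤ) ∣ ADC.fA p k g ∧ (p : ℤ) ^ (2 - k % 2) ∣ ADC.fB p k g := by
    funext g
    rw [A_eq, B_eq]
  unfold R
  rw [h]
  rfl

private theorem c_eq (i j : ℕ) (g : Poly) : c i j 0 0 g = ADP.ct i j g := by
  unfold c ADP.ct AD.com
  rw [Finsupp.single_zero, Finsupp.single_zero, add_zero, add_zero]

private theorem d_eq {p : ℕ} (hp : p ≠ 3) (i : ℕ) (g : Poly) : d p i g = ADP.cc p i g := by
  unfold d ADP.cc
  rw [if_neg hp, c_eq]

private theorem C_eq {p : ℕ} (hp : p ≠ 3) : C p = ADP.QR (ADP.KC p) := by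
  unfold C ADP.KC
  simp only [d_eq hp]
  rw [if_neg hp]
  rfl

private theorem C3_eq : C3 = ADP.QR (ADP.KC 3) := by
  unfold C3 ADP.KC ADP.cc
  rw [if_pos rfl, if_pos rfl]
  simp only [c_eq]
  rfl

private theorem C2_eq (l m : ℤ) : C2 l m = ADP.QR (ADP.KC2 l m) := by
  unfold C2 ADP.KC2
  simp only [c_eq]
  rfl

private theorem D_eq : D = ADP.QR ADP.KT4 := rfl

private theorem gen_eq {K : Set AD.P} (hK : ADC.AddS K) : generated (ADP.QR K) = AD.Mod (ADP.LId K) :=
  ADP.Mod_QR hK

private theorem genR_eq (p k : ℕ) : generated (R p k) = ADC.VG p k := by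
  rw [R_eq, gen_eq (ADP.KGd_add p k)]
  rfl

private theorem genC_eq {p : ℕ} (hp : p ≠ 3) : generated (C p) = ADP.VC p := by
  rw [C_eq hp, gen_eq (ADP.KC_add p)]
  rfl

private theorem genC3_eq : generated C3 = ADP.VC 3 := by
  rw [C3_eq, gen_eq (ADP.KC_add 3)]
  rfl

private theorem genC2_eq (l m : ℤ) : generated (C2 l m) = ADP.VC2 l m := by
  rw [C2_eq, gen_eq (ADP.KC2_add l m)]
  rfl

private theorem genD_eq : generated D = ADP.VT4 := by
  rw [D_eq, gen_eq ADP.KT4_add]
  rfl

private theorem Listed_eq {p : ℕ} (h4 : p ≠ 4) : Listed p = ADP.VLA p := by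
  have hU : U p = ADC.VU p := rfl
  have hN : N p = ADP.VNp p := rfl
  have hW : W p = ADC.VW p := rfl
  have hW3 : W3 = ADP.VW3 := rfl
  have hE : E = ADP.VE := rfl
  have hE' : E' = ADP.VF := rfl
  ext V
  unfold Listed ADP.VLA
  simp only [Set.mem_setOf_eq, hU, hN, hW, hW3, hE, hE', genR_eq, genD_eq, genC2_eq, genC3_eq]
  constructor
  · rintro (h | h | h | ⟨h3, h⟩ | ⟨h5, h⟩ | ⟨h3, h⟩ | ⟨h2, h⟩)
    · exact Or.inl h
    · exact Or.inr (Or.inl h)
    · exact Or.inr (Or.inr (Or.inl h))
    · exact Or.inr (Or.inr (Or.inr (Or.inl ⟨h3, Or.inr h⟩)))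
    · rw [genC_eq (by omega)] at h
      exact Or.inr (Or.inr (Or.inr (Or.inl ⟨by omega, Or.inl h⟩)))
    · subst h3
      rcases h with h | h | h | h
      · exact Or.inr (Or.inr (Or.inr (Or.inr (Or.inl ⟨rfl, Or.inl h⟩))))
      · exact Or.inr (Or.inr (Or.inr (Or.inr (Or.inl ⟨rfl, Or.inr (Or.inl h)⟩))))
      · exact Or.inr (Or.inr (Or.inr (Or.inr (Or.inl ⟨rfl, Or.inr (Or.inr h)⟩))))
      · exact Or.inr (Or.inr (Or.inr (Or.inl ⟨le_rfl, Or.inl h⟩)))
    · subst h2
      rcases h with h | h | h | h | h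
      · exact Or.inr (Or.inr (Or.inr (Or.inr (Or.inr ⟨rfl, Or.inl h⟩))))
      · exact Or.inr (Or.inr (Or.inr (Or.inr (Or.inr ⟨rfl, Or.inr ⟨0, 0, Or.inl rfl, Or.inl rfl, h⟩⟩))))
      · exact Or.inr (Or.inr (Or.inr (Or.inr (Or.inr ⟨rfl, Or.inr ⟨0, 1, Or.inl rfl, Or.inr rfl, h⟩⟩))))
      · exact Or.inr (Or.inr (Or.inr (Or.inr (Or.inr ⟨rfl, Or.inr ⟨1, 0, Or.inr rfl, Or.inl rfl, h⟩⟩))))
      · exact Or.inr (Or.inr (Or.inr (Or.inr (Or.inr ⟨rfl, Or.inr ⟨1, 1, Or.inr rfl, Or.inr rfl, h⟩⟩))))
  · rintro (h | h | h | ⟨h3, h | h⟩ | ⟨h3, h | h | h⟩ | ⟨h2, h | ⟨l, m, rfl | rfl, rfl | rfl, h⟩⟩)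
    · exact Or.inl h
    · exact Or.inr (Or.inl h)
    · exact Or.inr (Or.inr (Or.inl h))
    · by_cases h3' : p = 3
      · subst h3'
        exact Or.inr (Or.inr (Or.inr (Or.inr (Or.inr (Or.inl ⟨rfl, Or.inr (Or.inr (Or.inr h))⟩)))))
      · refine Or.inr (Or.inr (Or.inr (Or.inr (Or.inl ⟨by omega, ?_⟩))))
        rw [genC_eq h3']
        exact h
    · exact Or.inr (Or.inr (Or.inr (Or.inl ⟨h3, h⟩)))
    · exact Or.inr (Or.inr (Or.inr (Or.inr (Or.inr (Or.inl ⟨h3, Or.inl h⟩)))))
    · exact Or.inr (Or.inr (Or.inr (Or.inr (Or.inr (Or.inl ⟨h3, Or.inr (Or.inl h)⟩)))))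
    · exact Or.inr (Or.inr (Or.inr (Or.inr (Or.inr (Or.inl ⟨h3, Or.inr (Or.inr (Or.inl h))⟩)))))
    · exact Or.inr (Or.inr (Or.inr (Or.inr (Or.inr (Or.inr ⟨h2, Or.inl h⟩)))))
    · exact Or.inr (Or.inr (Or.inr (Or.inr (Or.inr (Or.inr ⟨h2, Or.inr (Or.inl h)⟩)))))
    · exact Or.inr (Or.inr (Or.inr (Or.inr (Or.inr (Or.inr ⟨h2, Or.inr (Or.inr (Or.inl h))⟩)))))
    · exact Or.inr (Or.inr (Or.inr (Or.inr (Or.inr (Or.inr ⟨h2, Or.inr (Or.inr (Or.inr (Or.inl h)))⟩)))))
    · exact Or.inr (Or.inr (Or.inr (Or.inr (Or.inr (Or.inr ⟨h2, Or.inr (Or.inr (Or.inr (Or.inr h)))⟩)))))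

/-- **Theorem.**  A class of rings is an almost distributive variety if and only if it is in the list for some
prime number `p`.  The list for `p` has 8 members for `p = 2` and for `p = 3`, and `p + 3` members for `p ≥ 5`.
The generating rings in the list are finite. -/
theorem result :
    (∀ V : Set RingObj, AlmostDistributive V ↔ ∃ p : ℕ, p.Prime ∧ V ∈ Listed p) ∧
    ((Listed 2).ncard = 8 ∧ (Listed 3).ncard = 8 ∧ ∀ p : ℕ, p.Prime → 5 ≤ p → (Listed p).ncard = p + 3) ∧
    (∀ p : ℕ, p.Prime → 5 ≤ p → Finite (C p).1) ∧ (∀ p k : ℕ, p.Prime → Finite (R p k).1) ∧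
    Finite C3.1 ∧ (∀ l m : ℤ, Finite (C2 l m).1) ∧ Finite D.1 := by
  have h4 : ∀ p : ℕ, p.Prime → p ≠ 4 := by
    rintro p hp rfl
    norm_num at hp
  refine ⟨fun V => ?_, ⟨?_, ?_, fun p hp h5 => ?_⟩, fun p hp h5 => ?_, fun p k hp => ?_, ?_, fun l m => ?_, ?_⟩
  · refine (ADP.VLA_alm (V := V)).trans (exists_congr fun p => and_congr_right fun hp => ?_)
    rw [Listed_eq (h4 p hp)]
  · rw [Listed_eq (by norm_num), ADP.VLA_card Nat.prime_two, if_pos rfl]
  · rw [Listed_eq (by norm_num), ADP.VLA_card Nat.prime_three, if_neg (by norm_num), if_pos rfl]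
  · rw [Listed_eq (h4 p hp), ADP.VLA_card hp, if_neg (by omega), if_neg (by omega)]
  · rw [C_eq (by omega)]
    exact ADP.finite_C hp.pos
  · rw [R_eq]
    exact ADP.finite_G hp.pos
  · rw [C3_eq]
    exact ADP.finite_C (by norm_num)
  · rw [C2_eq]
    exact ADP.finite_C2 l m
  · rw [D_eq]
    exact ADP.finite_T4

end Pool.Agent.Results.MP_cf90cc_al.CompleteList
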