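import Mathlib
import Pool.Agent.ADA.ExpMain

/-!
# The exponents of the almost distributive varieties of rings

Rings are associative and need not have an identity; they are Mathlib's `NonUnitalRing`s.
-/

namespace Pool.Agent.Results.MP_cf90cc_al.Exponents

/-- Polynomials with integer coefficients in the noncommuting variables `x_0, x_1, x_2, ...`. -/
abbrev Poly := FreeAlgebra ℤ ℕ

/-- The constant term of a polynomial. -/
noncomputable def constantTerm : Poly →ₐ[ℤ] ℤ := FreeAlgebra.lift ℤ (fun _ => 0)

/-- The polynomials without constant term; only these are used as identities of rings without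
identity element. -/
def ConstantFree : Set Poly := {f | constantTerm f = 0}

/-- A ring: a type with the structure of an associative ring, not necessarily with identity. -/
abbrev RingObj := Σ R : Type, NonUnitalRing R

/-- The ring `R` satisfies the identity `f = 0`: for all elements `a_0, a_1, ...` of `R` the value
`f(a_0, a_1, ...)` is zero.  The value is computed in `Unitization ℤ R = ℤ ⊕ R`, the ring obtained
from `R` by adjoining an identity element; for `f` without constant term it lies in `R`. -/
def Satisfies (R : RingObj) (f : Poly) : Prop :=
  letI : NonUnitalRing R.1 := R.2
  ∀ a : ℕ → R.1, FreeAlgebra.lift ℤ (fun i => ((a i : R.1) : Unitization ℤ R.1)) f = 0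

/-- The class of all rings satisfying all identities in `S`. -/
def Mod (S : Set Poly) : Set RingObj := {R | ∀ f ∈ S, Satisfies R f}

/-- The identities (without constant term) satisfied by all rings in the class `K`. -/
def Identities (K : Set RingObj) : Set Poly := {f | f ∈ ConstantFree ∧ ∀ R ∈ K, Satisfies R f}

/-- A variety of rings: the class of all rings satisfying some set of polynomial identities. -/
def IsVariety (K : Set RingObj) : Prop := ∃ S : Set Poly, S ⊆ ConstantFree ∧ K = Mod S

/-- The join of two varieties: the smallest variety containing both, i.e. the class of all rings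
satisfying the common identities of both. -/
def join (K K' : Set RingObj) : Set RingObj := Mod (Identities (K ∪ K'))

/-- The lattice `L(V)` of subvarieties of `V` (meet = intersection) is distributive. -/
def DistributiveLattice (V : Set RingObj) : Prop :=
  ∀ A B C : Set RingObj, IsVariety A → IsVariety B → IsVariety C → A ⊆ V → B ⊆ V → C ⊆ V →
    A ∩ join B C = join (A ∩ B) (A ∩ C)

/-- `V` is an almost distributive variety of rings: `L(V)` is not distributive, but `L(W)` is
distributive for every variety `W` properly contained in `V`. -/
def AlmostDistributive (V : Set RingObj) : Prop :=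
  IsVariety V ∧ ¬ DistributiveLattice V ∧
    ∀ W, IsVariety W → W ⊂ V → DistributiveLattice W

/-- The exponent of `V` is `m`: the identity `n x = 0` holds in all rings in `V` if and only if `m`
divides `n`. -/
def HasExponent (V : Set RingObj) (m : ℕ) : Prop :=
  ∀ n : ℕ, (∀ R ∈ V, Satisfies R ((n : ℤ) • FreeAlgebra.ι ℤ 0)) ↔ m ∣ n

/-- **Theorem.**  The exponents of the almost distributive varieties of rings are exactly the primes
and the squares of primes. -/
theorem result (m : ℕ) : (∃ V : Set RingObj, AlmostDistributive V ∧ HasExponent V m) ↔
    ∃ p : ℕ, p.Prime ∧ (m = p ∨ m = p ^ 2) :=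
  ADA.exponents m

end Pool.Agent.Results.MP_cf90cc_al.Exponents
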